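import Mathlib
import Pool.Agent.H.MP_c8cc4c_co.Hub.Iface

/-! # MP_c8cc4c_co, full question, part D, file 1: breadth first tree of a connected graph -/

open scoped Classical
open Finset

noncomputable section

namespace Pool.Agent.H.MP_c8cc4c_co.Hub

theorem D_par_exists {V : Type} {G : SimpleGraph V} {o : V} (hc : ∀ v, G.Reachable v o) (v : V)
    (hv : v ≠ o) : ∃ w, G.Adj v w ∧ G.dist v o = G.dist w o + 1 := by
  obtain ⟨p, hp⟩ := (hc v).exists_walk_length_eq_dist
  cases p with
  | nil => exact absurd rfl hv
  | @cons _ w _ h q =>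
    rw [SimpleGraph.Walk.length_cons] at hp
    refine ⟨w, h, le_antisymm ?_ ?_⟩
    · obtain ⟨q', hq'⟩ := (hc w).exists_walk_length_eq_dist
      rw [← hq', ← SimpleGraph.Walk.length_cons h q']
      exact SimpleGraph.dist_le _
    · rw [← hp]
      exact Nat.add_le_add_right (SimpleGraph.dist_le q) 1

/-- the breadth first tree of a connected graph -/
@[reducible] def D_Rt {V : Type} (G : SimpleGraph V) (o : V) (hc : ∀ v, G.Reachable v o) : Rt V where
  G := G
  o := o
  f := fun v => G.dist v o
  par := fun v => if h : v = o then o else (D_par_exists hc v h).choose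
  f_zero := fun v => (hc v).dist_eq_zero_iff
  par_o := dif_pos rfl
  par_adj := fun v hv => by
    show G.Adj v (if h : v = o then o else (D_par_exists hc v h).choose)
    rw [dif_neg hv]
    exact (D_par_exists hc v hv).choose_spec.1
  par_f := fun v hv => by
    show G.dist v o = G.dist (if h : v = o then o else (D_par_exists hc v h).choose) o + 1
    rw [dif_neg hv]
    exact (D_par_exists hc v hv).choose_spec.2
  adj_f := fun u v h => by
    obtain ⟨q', hq'⟩ := (hc v).exists_walk_length_eq_dist
    rw [← hq', ← SimpleGraph.Walk.length_cons h q']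
    exact SimpleGraph.dist_le _

end Pool.Agent.H.MP_c8cc4c_co.Hub
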