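import Mathlib
import Pool.Agent.H.MP_c8cc4c_co.Hub.Iface
import Pool.Agent.H.MP_c8cc4c_co.K.Draw
import Pool.Agent.H.MP_c8cc4c_co.F.SdA

/-! # MP_c8cc4c_co, full question, part D, file 2: the trails of a labelled combinatorial map as walks in the
barycentric subdivision of the ring complex of the subdivided map -/

open scoped Classical
open Finset

noncomputable section

namespace Pool.Agent.H.MP_c8cc4c_co.Hub

variable (m : CMap)

/-- the point at the start of the dart -/
def TP (x : m.D) : (RC m.sub).Cell := (RC m.sub).cv (RV.base (orb m.sub.σ (x, false)))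

/-- the first half of the dart -/
def TE (x : m.D) : (RC m.sub).Cell := (RC m.sub).ce (RE.base (orb m.sub.α (x, false)))

/-- the midpoint of the dart -/
def TM (x : m.D) : (RC m.sub).Cell := (RC m.sub).cv (RV.base (orb m.sub.σ (x, true)))

variable {m}

theorem TP_eq {x y : m.D} : TP m x = TP m y ↔ m.σ.SameCycle x y := by
  constructor
  · intro h
    have h1 := SdA_cv_inj.1 h
    injection h1 with h1
    exact (sub_scσ_f m).1 (orb_eq.1 h1)
  · intro h
    show (RC m.sub).cv (RV.base (orb m.sub.σ (x, false))) = _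
    rw [orb_eq.2 ((sub_scσ_f m).2 h)]
    rfl

theorem TE_eq {x y : m.D} (h : TE m x = TE m y) : x = y := by
  have h1 := SdA_ce_inj.1 h
  injection h1 with h1
  rcases m.sub.orbα.1 h1 with h2 | h2
  · exact (congrArg Prod.fst h2).symm
  · have h3 : false = true := congrArg Prod.snd h2
    cases h3

theorem TM_eq {x y : m.D} : TM m x = TM m y ↔ y = x ∨ y = m.α x := by
  constructor
  · intro h
    have h1 := SdA_cv_inj.1 h
    injection h1 with h1
    exact (sameCycle_invol m.α_inv).1 ((sub_scσ_t m).1 (orb_eq.1 h1))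
  · intro h
    show (RC m.sub).cv (RV.base (orb m.sub.σ (x, true))) = _
    rw [orb_eq.2 ((sub_scσ_t m).2 ((sameCycle_invol m.α_inv).2 h))]
    rfl

theorem T_adj1 (x : m.D) : (RC m.sub).sdPC.graph.Adj (TP m x) (TE m x) :=
  sd_adj_ve.2 (RC_inc_bb.2 (Or.inl rfl))

theorem T_adj2 (x : m.D) : (RC m.sub).sdPC.graph.Adj (TE m x) (TM m x) := by
  refine SimpleGraph.Adj.symm (sd_adj_ve.2 (RC_inc_bb.2 (Or.inr ?_)))
  show orb m.sub.σ (x, true) = orb m.sub.σ (m.α x, true)
  exact orb_eq.2 ((sub_scσ_t m).2 ((sameCycle_invol m.α_inv).2 (Or.inr rfl)))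

theorem T_adj3 (x : m.D) : (RC m.sub).sdPC.graph.Adj (TM m x) (TE m (m.α x)) := by
  rw [TM_eq.2 (Or.inr rfl)]
  exact (T_adj2 (m.α x)).symm

/-- the walk along a dart -/
theorem T_walk4 (x : m.D) : ∃ p : (RC m.sub).sdPC.graph.Walk (TP m x) (TP m (m.α x)),
    p.length = 4 ∧ ∀ v ∈ p.support, v = TP m x ∨ v = TE m x ∨ v = TM m x ∨ v = TE m (m.α x) ∨
      v = TP m (m.α x) := by
  refine ⟨SimpleGraph.Walk.cons (T_adj1 x) (SimpleGraph.Walk.cons (T_adj2 x)
    (SimpleGraph.Walk.cons (T_adj3 x) (SimpleGraph.Walk.cons (T_adj1 (m.α x)).symm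
      SimpleGraph.Walk.nil))), rfl, ?_⟩
  intro v hv
  simpa using hv

/-- the next dart of a trail -/
def nxt (m : CMap) (a : m.D) : m.D := m.σ (m.σ (m.α a))

theorem nxt_inj : Function.Injective (nxt m) :=
  fun _ _ h => m.α.injective (m.σ.injective (m.σ.injective h))

variable {W : Type} (lab : m.D → Option W)

/-- the cell `v` is an interior cell of the trails which use the dart `z` -/
def OnT (v : (RC m.sub).Cell) (z : m.D) : Prop :=
  v = TE m z ∨ v = TE m (m.α z) ∨ v = TM m z ∨ (v = TP m z ∧ lab z = none)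

theorem OnT_card (hlab : ∀ d, lab d = none → m.σ (m.σ (m.σ (m.σ d))) = d)
    (v : (RC m.sub).Cell) : (univ.filter fun z => OnT lab v z).card ≤ 8 := by
  have hA : (univ.filter fun z : m.D => v = TE m z).card ≤ 1 := by
    refine Finset.card_le_one.2 ?_
    intro a ha b hb
    rw [mem_filter] at ha hb
    exact TE_eq (ha.2.symm.trans hb.2)
  have hB : (univ.filter fun z : m.D => v = TE m (m.α z)).card ≤ 1 := by
    refine Finset.card_le_one.2 ?_
    intro a ha b hb
    rw [mem_filter] at ha hb
    exact m.α.injective (TE_eq (ha.2.symm.trans hb.2))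
  have hC : (univ.filter fun z : m.D => v = TM m z).card ≤ 2 := by
    by_cases h : ∃ z0, v = TM m z0
    · obtain ⟨z0, rfl⟩ := h
      refine (Finset.card_le_card (t := {z0, m.α z0}) ?_).trans Finset.card_le_two
      intro z hz
      rw [mem_filter] at hz
      rw [mem_insert, mem_singleton]
      exact TM_eq.1 hz.2
    · rw [Finset.card_eq_zero.2]
      · exact Nat.zero_le _
      · rw [filter_eq_empty_iff]
        intro z _ hz
        exact h ⟨z, hz⟩
  have hD : (univ.filter fun z : m.D => v = TP m z ∧ lab z = none).card ≤ 4 := by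
    by_cases h : ∃ z0, v = TP m z0 ∧ lab z0 = none
    · obtain ⟨z0, rfl, hz0⟩ := h
      refine (Finset.card_le_card (t := {z0, m.σ z0, m.σ (m.σ z0), m.σ (m.σ (m.σ z0))}) ?_).trans
        Finset.card_le_four
      intro z hz
      rw [mem_filter] at hz
      obtain ⟨n, hn⟩ := (TP_eq.1 hz.2.1).exists_nat_pow_eq
      have key : ∀ n : ℕ, (m.σ ^ n) z0 ∈
          ({z0, m.σ z0, m.σ (m.σ z0), m.σ (m.σ (m.σ z0))} : Finset m.D) := by
        intro n
        induction n with
        | zero =>
          rw [pow_zero, Equiv.Perm.one_apply]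
          exact mem_insert_self _ _
        | succ n ih =>
          rw [pow_succ', Equiv.Perm.mul_apply]
          simp only [mem_insert, mem_singleton] at ih ⊢
          rcases ih with h | h | h | h
          · rw [h]
            exact Or.inr (Or.inl rfl)
          · rw [h]
            exact Or.inr (Or.inr (Or.inl rfl))
          · rw [h]
            exact Or.inr (Or.inr (Or.inr rfl))
          · rw [h]
            exact Or.inl (hlab z0 hz0)
      rw [← hn]
      exact key n
    · rw [Finset.card_eq_zero.2]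
      · exact Nat.zero_le _
      · rw [filter_eq_empty_iff]
        intro z _ hz
        exact h ⟨z, hz⟩
  have hsub : (univ.filter fun z => OnT lab v z) ⊆
      ((univ.filter fun z : m.D => v = TE m z) ∪ (univ.filter fun z : m.D => v = TE m (m.α z))) ∪
      ((univ.filter fun z : m.D => v = TM m z) ∪
        (univ.filter fun z : m.D => v = TP m z ∧ lab z = none)) := by
    intro z hz
    rw [mem_filter] at hz
    rcases hz.2 with h | h | h | h
    · exact mem_union_left _ (mem_union_left _ (mem_filter.2 ⟨mem_univ _, h⟩))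
    · exact mem_union_left _ (mem_union_right _ (mem_filter.2 ⟨mem_univ _, h⟩))
    · exact mem_union_right _ (mem_union_left _ (mem_filter.2 ⟨mem_univ _, h⟩))
    · exact mem_union_right _ (mem_union_right _ (mem_filter.2 ⟨mem_univ _, h⟩))
  have h1 := Finset.card_le_card hsub
  have h2 := Finset.card_union_le
    ((univ.filter fun z : m.D => v = TE m z) ∪ (univ.filter fun z : m.D => v = TE m (m.α z)))
    ((univ.filter fun z : m.D => v = TM m z) ∪
        (univ.filter fun z : m.D => v = TP m z ∧ lab z = none))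
  have h3 := Finset.card_union_le (univ.filter fun z : m.D => v = TE m z)
    (univ.filter fun z : m.D => v = TE m (m.α z))
  have h4 := Finset.card_union_le (univ.filter fun z : m.D => v = TM m z)
    (univ.filter fun z : m.D => v = TP m z ∧ lab z = none)
  omega

theorem OnT_not_face {z : m.D} {f : (RC m.sub).F} : ¬ OnT lab ((RC m.sub).cf f) z := by
  rintro (h | h | h | ⟨h, -⟩)
  · exact SdA_ce_cf h.symm
  · exact SdA_ce_cf h.symm
  · exact SdA_cv_cf h.symm
  · exact SdA_cv_cf h.symm

/-- the walk along a trail -/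
theorem T_walk (hσ : ∀ d, lab (m.σ d) = lab d) (d : m.D) (j : ℕ)
    (h : ∀ i < j, lab (m.α ((nxt m)^[i] d)) = none) :
    ∃ p : (RC m.sub).sdPC.graph.Walk (TP m d) (TP m (m.α ((nxt m)^[j] d))),
      p.length ≤ 4 * (j + 1) ∧ ∀ v ∈ p.support, v = TP m d ∨ v = TP m (m.α ((nxt m)^[j] d)) ∨
        ∃ i ≤ j, OnT lab v ((nxt m)^[i] d) := by
  induction j with
  | zero =>
    obtain ⟨p, hp, hp'⟩ := T_walk4 d
    refine ⟨p, le_of_eq hp, ?_⟩
    intro v hv
    rcases hp' v hv with h1 | h1 | h1 | h1 | h1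
    · exact Or.inl h1
    · exact Or.inr (Or.inr ⟨0, le_refl _, Or.inl h1⟩)
    · exact Or.inr (Or.inr ⟨0, le_refl _, Or.inr (Or.inr (Or.inl h1))⟩)
    · exact Or.inr (Or.inr ⟨0, le_refl _, Or.inr (Or.inl h1)⟩)
    · exact Or.inr (Or.inl h1)
  | succ j ih =>
    obtain ⟨p, hp, hp'⟩ := ih (fun i hi => h i (Nat.lt_succ_of_lt hi))
    obtain ⟨q, hq, hq'⟩ := T_walk4 ((nxt m)^[j + 1] d)
    have hn : (nxt m)^[j + 1] d = m.σ (m.σ (m.α ((nxt m)^[j] d))) := by
      rw [Function.iterate_succ_apply']
      rfl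
    have he : TP m (m.α ((nxt m)^[j] d)) = TP m ((nxt m)^[j + 1] d) := by
      rw [TP_eq, hn]
      exact Equiv.Perm.sameCycle_apply_right.2 (Equiv.Perm.sameCycle_apply_right.2
        (Equiv.Perm.SameCycle.refl _ _))
    have hl : lab ((nxt m)^[j + 1] d) = none := by
      rw [hn, hσ, hσ]
      exact h j (Nat.lt_succ_self j)
    have hmid : OnT lab (TP m ((nxt m)^[j + 1] d)) ((nxt m)^[j + 1] d) :=
      Or.inr (Or.inr (Or.inr ⟨rfl, hl⟩))
    refine ⟨(p.copy rfl he).append q, ?_, ?_⟩
    · rw [SimpleGraph.Walk.length_append, SimpleGraph.Walk.length_copy, hq]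
      omega
    · intro v hv
      rw [SimpleGraph.Walk.mem_support_append_iff, SimpleGraph.Walk.support_copy] at hv
      rcases hv with hv | hv
      · rcases hp' v hv with h1 | h1 | ⟨i, hi, h1⟩
        · exact Or.inl h1
        · refine Or.inr (Or.inr ⟨j + 1, le_refl _, ?_⟩)
          rw [h1, he]
          exact hmid
        · exact Or.inr (Or.inr ⟨i, Nat.le_succ_of_le hi, h1⟩)
      · rcases hq' v hv with h1 | h1 | h1 | h1 | h1
        · refine Or.inr (Or.inr ⟨j + 1, le_refl _, ?_⟩)
          rw [h1]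
          exact hmid
        · exact Or.inr (Or.inr ⟨j + 1, le_refl _, Or.inl h1⟩)
        · exact Or.inr (Or.inr ⟨j + 1, le_refl _, Or.inr (Or.inr (Or.inl h1))⟩)
        · exact Or.inr (Or.inr ⟨j + 1, le_refl _, Or.inr (Or.inl h1)⟩)
        · exact Or.inr (Or.inl h1)

/-- the walk along a trail, with given ends -/
theorem T_walk' (hσ : ∀ d, lab (m.σ d) = lab d) (d : m.D) (j : ℕ)
    (h : ∀ i < j, lab (m.α ((nxt m)^[i] d)) = none) (a b : (RC m.sub).sdPC.V)
    (ha : TP m d = a) (hb : TP m (m.α ((nxt m)^[j] d)) = b) :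
    ∃ p : (RC m.sub).sdPC.graph.Walk a b,
      p.length ≤ 4 * (j + 1) ∧ ∀ v ∈ p.support, v = a ∨ v = b ∨
        ∃ i ≤ j, OnT lab v ((nxt m)^[i] d) := by
  subst ha
  subst hb
  exact T_walk lab hσ d j h

/-- the first dart of a trail is determined by any of its darts -/
theorem T_start (hσ : ∀ d, lab (m.σ d) = lab d) {d d' : m.D} {i i' : ℕ} (hd : lab d ≠ none)
    (hd' : lab d' ≠ none) (h : ∀ t < i, lab (m.α ((nxt m)^[t] d)) = none)
    (h' : ∀ t < i', lab (m.α ((nxt m)^[t] d')) = none)
    (he : (nxt m)^[i] d = (nxt m)^[i'] d') : d = d' := by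
  have key : ∀ (d d' : m.D) (i n : ℕ), lab d ≠ none →
      (∀ t < i + n, lab (m.α ((nxt m)^[t] d')) = none) →
      (nxt m)^[i] d = (nxt m)^[i + n] d' → d = d' := by
    intro d d' i n hd h' he
    rw [Function.iterate_add_apply] at he
    have h1 : d = (nxt m)^[n] d' := (nxt_inj.iterate i) he
    cases n with
    | zero => exact h1
    | succ n =>
      exfalso
      apply hd
      rw [h1, Function.iterate_succ_apply']
      show lab (m.σ (m.σ (m.α ((nxt m)^[n] d')))) = none
      rw [hσ, hσ]
      exact h' n (by omega)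
  rcases Nat.le_total i i' with hi | hi
  · obtain ⟨n, rfl⟩ := Nat.exists_eq_add_of_le hi
    exact key d d' i n hd h' he
  · obtain ⟨n, rfl⟩ := Nat.exists_eq_add_of_le hi
    exact (key d' d i' n hd' h he.symm).symm

end Pool.Agent.H.MP_c8cc4c_co.Hub
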