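import Mathlib
import Pool.Agent.H.MP_c8cc4c_co.Hub.D.Rt
import Pool.Agent.H.MP_c8cc4c_co.Hub.D.Trail
import Pool.Agent.H.MP_c8cc4c_co.K.Final

/-! # MP_c8cc4c_co, full question, part D, file 3: the family of paths of one component of a drawing -/

open scoped Classical
open Finset

noncomputable section

namespace Pool.Agent.H.MP_c8cc4c_co.Hub

variable {W : Type} {G : SimpleGraph W} {k : ℕ} (Dr : Drawing G k)

/-- the sphere of a component -/
@[reducible] def DN (d0 : Dr.D) : PC := (RC (cmap Dr d0).sub).sdPC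

/-- a face of the ring complex -/
def Do (d0 : Dr.D) : (DN Dr d0).V :=
  (RC (cmap Dr d0).sub).cf (RF.quad (⟨d0, Relation.ReflTransGen.refl⟩, false))

/-- the labels of a component -/
def Dlab (d0 : Dr.D) (x : (cmap Dr d0).D) : Option W := Dr.lab x.1

theorem Dlab_σ (d0 : Dr.D) (x : (cmap Dr d0).D) :
    Dlab Dr d0 ((cmap Dr d0).σ x) = Dlab Dr d0 x := Dr.lab_σ x.1

theorem Dlab_cross (d0 : Dr.D) (x : (cmap Dr d0).D) (h : Dlab Dr d0 x = none) :
    (cmap Dr d0).σ ((cmap Dr d0).σ ((cmap Dr d0).σ ((cmap Dr d0).σ x))) = x :=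
  Subtype.ext (Dr.cross x.1 h).2

theorem D_iter (d0 : Dr.D) (x : (cmap Dr d0).D) (j : ℕ) :
    ((nxt (cmap Dr d0))^[j] x).1 = (fun a => Dr.σ (Dr.σ (Dr.α a)))^[j] x.1 := by
  induction j with
  | zero => rfl
  | succ j ih =>
    rw [Function.iterate_succ_apply', Function.iterate_succ_apply', ← ih]
    rfl

/-- the trail of an edge in the component -/
def DTr (d0 : Dr.D) (a b : W) (d : (cmap Dr d0).D) (j : ℕ) : Prop :=
  Dlab Dr d0 d = some a ∧ (∀ i < j, Dlab Dr d0 ((cmap Dr d0).α ((nxt (cmap Dr d0))^[i] d)) = none) ∧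
    Dlab Dr d0 ((cmap Dr d0).α ((nxt (cmap Dr d0))^[j] d)) = some b

theorem D_trail {d0 : Dr.D} {a b : W} (h : G.Adj a b) (ha : cX Dr a = {x | Rch Dr d0 x}) :
    ∃ d : (cmap Dr d0).D, ∃ j ≤ k, DTr Dr d0 a b d j := by
  obtain ⟨d, ⟨hd, j', h1, h2⟩, -⟩ := Dr.edges a b h
  obtain ⟨j, hj, w'', -, h4, h5⟩ := Dr.trail d a hd
  have hjj : j = j' := by
    rcases lt_trichotomy j j' with h6 | h6 | h6
    · have h7 := h1 j h6
      rw [h5] at h7
      cases h7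
    · exact h6
    · have h7 := h4 j' h6
      rw [h2] at h7
      cases h7
  subst hjj
  have hR : Rch Dr d0 d := by
    have h6 : d ∈ cX Dr a := ⟨d, hd, Relation.ReflTransGen.refl⟩
    rw [ha] at h6
    exact h6
  have hc : ∀ i, ((cmap Dr d0).α ((nxt (cmap Dr d0))^[i] ⟨d, hR⟩)).1 =
      Dr.α ((fun a => Dr.σ (Dr.σ (Dr.α a)))^[i] d) := by
    intro i
    exact congrArg Dr.α (D_iter Dr d0 ⟨d, hR⟩ i)
  refine ⟨⟨d, hR⟩, j, hj, hd, ?_, ?_⟩
  · intro i hi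
    show Dr.lab ((cmap Dr d0).α ((nxt (cmap Dr d0))^[i] ⟨d, hR⟩)).1 = none
    rw [hc]
    exact h1 i hi
  · show Dr.lab ((cmap Dr d0).α ((nxt (cmap Dr d0))^[j] ⟨d, hR⟩)).1 = some b
    rw [hc]
    exact h2

/-- the cell of a vertex -/
def Dg (d0 : Dr.D) (w : W) : (DN Dr d0).V :=
  if h : ∃ d : (cmap Dr d0).D, Dlab Dr d0 d = some w then TP (cmap Dr d0) h.choose
  else Do Dr d0

theorem Dg_eq {d0 : Dr.D} {w : W} {d : (cmap Dr d0).D} (hd : Dlab Dr d0 d = some w) :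
    Dg Dr d0 w = TP (cmap Dr d0) d := by
  have h : ∃ d : (cmap Dr d0).D, Dlab Dr d0 d = some w := ⟨d, hd⟩
  have h1 : Dg Dr d0 w = TP (cmap Dr d0) h.choose := dif_pos h
  rw [h1]
  exact TP_eq.2 (orb_eq.1 ((cmap_sc Dr).2 (Dr.one_orbit _ _ w h.choose_spec hd)))

theorem D_dart {d0 : Dr.D} {w : W} (hw : cX Dr w = {x | Rch Dr d0 x}) :
    ∃ d : (cmap Dr d0).D, Dlab Dr d0 d = some w := by
  have h4 : d0 ∈ cX Dr w := by
    rw [hw]
    exact Relation.ReflTransGen.refl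
  obtain ⟨d, hd, h5⟩ := h4
  exact ⟨⟨d, Rch_symm Dr h5⟩, hd⟩

theorem Dg_inj {d0 : Dr.D} {w w' : W} (hw : cX Dr w = {x | Rch Dr d0 x})
    (hw' : cX Dr w' = {x | Rch Dr d0 x}) (h : Dg Dr d0 w = Dg Dr d0 w') : w = w' := by
  obtain ⟨d, hd⟩ := D_dart Dr hw
  obtain ⟨d', hd'⟩ := D_dart Dr hw'
  rw [Dg_eq Dr hd, Dg_eq Dr hd'] at h
  have h1 := lab_sc Dr ((cmap_sc Dr).1 (orb_eq.2 (TP_eq.1 h)))
  have h2 : Dr.lab d.1 = some w := hd
  have h3 : Dr.lab d'.1 = some w' := hd'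
  rw [h2, h3] at h1
  exact (Option.some.inj h1).symm

/-- the edges of the component -/
def DΓ (d0 : Dr.D) : SimpleGraph (DN Dr d0).V where
  Adj x u := ∃ a b, G.Adj a b ∧ cX Dr a = {x | Rch Dr d0 x} ∧ Dg Dr d0 a = x ∧ Dg Dr d0 b = u
  symm := ⟨fun x u h => by
    obtain ⟨a, b, h1, h2, h3, h4⟩ := h
    exact ⟨b, a, h1.symm, by rw [← cX_adj Dr h1]; exact h2, h4, h3⟩⟩
  loopless := ⟨fun x h => by
    obtain ⟨a, b, h1, h2, h3, h4⟩ := h
    have h5 := Dg_inj Dr h2 (by rw [← cX_adj Dr h1]; exact h2) (h3.trans h4.symm)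
    exact h1.ne h5⟩

/-- the vertex set `S` of a path which represents the edge `e` -/
def DPE (d0 : Dr.D) (e : Sym2 (DN Dr d0).V) (S : Finset (DN Dr d0).V) : Prop :=
  ∃ a b, cX Dr a = {x | Rch Dr d0 x} ∧ e = s(Dg Dr d0 a, Dg Dr d0 b) ∧
    (∃ p : (DN Dr d0).graph.Walk (Dg Dr d0 a) (Dg Dr d0 b), p.IsPath ∧ p.length ≤ 4 * (k + 1) ∧
      ∀ v, v ∈ S ↔ v ∈ p.support) ∧
    ∃ d j, DTr Dr d0 a b d j ∧ ∀ v ∈ S, v = Dg Dr d0 a ∨ v = Dg Dr d0 b ∨
      ∃ i ≤ j, OnT (Dlab Dr d0) v ((nxt (cmap Dr d0))^[i] d)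

theorem D_exists {d0 : Dr.D} {x u : (DN Dr d0).V} (h : (DΓ Dr d0).Adj x u) :
    ∃ S, DPE Dr d0 s(x, u) S := by
  obtain ⟨a, b, h1, h2, rfl, rfl⟩ := h
  obtain ⟨d, j, hj, hT⟩ := D_trail Dr h1 h2
  obtain ⟨p, hp, hp'⟩ := T_walk' (Dlab Dr d0) (Dlab_σ Dr d0) d j hT.2.1 (Dg Dr d0 a) (Dg Dr d0 b)
    (Dg_eq Dr hT.1).symm (Dg_eq Dr hT.2.2).symm
  refine ⟨p.bypass.support.toFinset, a, b, h2, rfl, ⟨p.bypass,
    SimpleGraph.Walk.bypass_isPath _, ?_, fun v => List.mem_toFinset⟩, d, j, hT, ?_⟩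
  · exact (SimpleGraph.Walk.length_bypass_le_length _).trans
      (hp.trans (Nat.mul_le_mul_left 4 (Nat.succ_le_succ hj)))
  · intro v hv
    rw [List.mem_toFinset] at hv
    exact hp' v (SimpleGraph.Walk.support_bypass_subset_support _ hv)

/-- the paths -/
def DQ (d0 : Dr.D) (e : Sym2 (DN Dr d0).V) : Finset (DN Dr d0).V :=
  if h : ∃ S, DPE Dr d0 e S then h.choose else ∅

theorem DQ_spec {d0 : Dr.D} {e : Sym2 (DN Dr d0).V} (he : e ∈ (DΓ Dr d0).edgeSet) :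
    DPE Dr d0 e (DQ Dr d0 e) := by
  induction e using Sym2.ind with
  | _ x u =>
    have h := D_exists Dr ((SimpleGraph.mem_edgeSet _).1 he)
    unfold DQ
    rw [dif_pos h]
    exact h.choose_spec

theorem DQ_cong (d0 : Dr.D) (v : (DN Dr d0).V) : (univ.filter fun e : Sym2 (DN Dr d0).V =>
    e ∈ (DΓ Dr d0).edgeSet ∧ v ∈ DQ Dr d0 e ∧ v ∉ e).card ≤ 8 := by
  let _ : Fintype (cmap Dr d0).D := (cmap Dr d0).finD
  refine le_trans ?_ (OnT_card (Dlab Dr d0) (Dlab_cross Dr d0) v)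
  refine Finset.card_le_card_of_forall_subsingleton
    (fun e z => ∃ a b d j, ∃ i ≤ j, e = s(Dg Dr d0 a, Dg Dr d0 b) ∧ DTr Dr d0 a b d j ∧
      (nxt (cmap Dr d0))^[i] d = z) ?_ ?_
  · intro e he
    rw [mem_filter] at he
    obtain ⟨-, he1, he2, he3⟩ := he
    obtain ⟨a, b, -, h1, -, d, j, h2, h3⟩ := DQ_spec Dr he1
    rcases h3 v he2 with h4 | h4 | ⟨i, hi, h4⟩
    · exfalso
      apply he3
      rw [h1, h4]
      exact Sym2.mem_mk_left _ _
    · exfalso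
      apply he3
      rw [h1, h4]
      exact Sym2.mem_mk_right _ _
    · exact ⟨(nxt (cmap Dr d0))^[i] d, mem_filter.2 ⟨mem_univ _, h4⟩, a, b, d, j, i, hi, h1, h2, rfl⟩
  · intro z _ e he e' he'
    obtain ⟨-, a, b, d, j, i, hi, h1, h2, h3⟩ := he
    obtain ⟨-, a', b', d', j', i', hi', h1', h2', h3'⟩ := he'
    have hd : d = d' := by
      refine T_start (Dlab Dr d0) (Dlab_σ Dr d0) (i := i) (i' := i') ?_ ?_ ?_ ?_ (h3.trans h3'.symm)
      · rw [h2.1]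
        exact Option.some_ne_none _
      · rw [h2'.1]
        exact Option.some_ne_none _
      · exact fun t ht => h2.2.1 t (lt_of_lt_of_le ht hi)
      · exact fun t ht => h2'.2.1 t (lt_of_lt_of_le ht hi')
    subst hd
    have ha : a = a' := by
      have h4 := h2.1
      rw [h2'.1] at h4
      exact (Option.some.inj h4).symm
    have hj : j = j' := by
      rcases lt_trichotomy j j' with h6 | h6 | h6
      · have h7 := h2'.2.1 j h6
        rw [h2.2.2] at h7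
        cases h7
      · exact h6
      · have h7 := h2.2.1 j' h6
        rw [h2'.2.2] at h7
        cases h7
    subst hj
    have hb : b = b' := by
      have h4 := h2.2.2
      rw [h2'.2.2] at h4
      exact (Option.some.inj h4).symm
    rw [h1, h1', ha, hb]

theorem Dg_ne_o {d0 : Dr.D} {w : W} {d : (cmap Dr d0).D} (hd : Dlab Dr d0 d = some w) :
    Do Dr d0 ≠ Dg Dr d0 w := by
  rw [Dg_eq Dr hd]
  exact fun h => SdA_cv_cf h.symm

theorem D_reach (d0 : Dr.D) (v : (DN Dr d0).V) : (DN Dr d0).graph.Reachable v (Do Dr d0) := by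
  obtain ⟨n, p, -, -⟩ := sd_conn (RC_sphere (sub_noLoop (cmap Dr d0))) v (Do Dr d0)
  exact ⟨p⟩

/-- the rooted graph of the component -/
@[reducible] def DR (d0 : Dr.D) : Rt (DN Dr d0).V := D_Rt (DN Dr d0).graph (Do Dr d0) (D_reach Dr d0)

/-- the family of paths of the component -/
def DFam (d0 : Dr.D) : Fam (DR Dr d0) (4 * (k + 1)) 8 where
  Γ := DΓ Dr d0
  Q := DQ Dr d0
  path := fun x u h => by
    obtain ⟨a, b, -, h1, ⟨p, hp, hp1, hp2⟩, -⟩ := DQ_spec Dr (e := s(x, u)) h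
    rcases Sym2.eq_iff.1 h1 with ⟨h2, h3⟩ | ⟨h2, h3⟩
    · subst h2
      subst h3
      exact ⟨p, hp, hp1, hp2⟩
    · subst h2
      subst h3
      refine ⟨p.reverse, hp.reverse, ?_, ?_⟩
      · rw [SimpleGraph.Walk.length_reverse]
        exact hp1
      · intro v
        rw [SimpleGraph.Walk.support_reverse, List.mem_reverse]
        exact hp2 v
  cong := DQ_cong Dr d0
  no_o := fun x u h => by
    show Do Dr d0 ∉ DQ Dr d0 s(x, u)
    obtain ⟨a, b, -, -, -, d, j, h2, h3⟩ := DQ_spec Dr (e := s(x, u)) h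
    intro h4
    rcases h3 _ h4 with h5 | h5 | ⟨i, -, h5⟩
    · exact Dg_ne_o Dr h2.1 h5
    · exact Dg_ne_o Dr h2.2.2 h5
    · exact OnT_not_face _ h5

end Pool.Agent.H.MP_c8cc4c_co.Hub
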