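import Mathlib
import Pool.Agent.H.MP_c8cc4c_co.Hub.D.Fam

/-! # MP_c8cc4c_co, full question, part D, file 4: conversion of drawings -/

open scoped Classical
open Finset

noncomputable section

namespace Pool.Agent.H.MP_c8cc4c_co.Hub

variable {W : Type} {G : SimpleGraph W} {k : ℕ} (Dr : Drawing G k)

/-- book embeddings of the components give one of the graph -/
theorem D_combine [Fintype W] {b : ℕ} (hall : ∀ X : Set Dr.D,
    ∃ (p : W → ℕ) (pg : Sym2 W → Fin b),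
      (∀ w w', cX Dr w = X → cX Dr w' = X → p w = p w' → w = w') ∧
      ∀ x y u w, cX Dr x = X → cX Dr y = X → G.Adj x u → G.Adj y w → p x < p y → p y < p u →
        p u < p w → pg s(x, u) ≠ pg s(y, w)) : BookLE G b := by
  have := Dr.finD
  choose p pg hp hpg using hall
  let B : ℕ := (∑ X : Set Dr.D, ∑ w : W, p X w) + 1
  have hB : ∀ X w, p X w < B := by
    intro X w
    have h4 : p X w ≤ ∑ w : W, p X w :=
      Finset.single_le_sum (f := fun w => p X w) (fun _ _ => Nat.zero_le _) (mem_univ w)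
    have h5 : (∑ w : W, p X w) ≤ ∑ X : Set Dr.D, ∑ w : W, p X w :=
      Finset.single_le_sum (f := fun X => ∑ w : W, p X w) (fun _ _ => Nat.zero_le _) (mem_univ X)
    exact Nat.lt_succ_of_le (h4.trans h5)
  let q : Set Dr.D → ℕ := fun X => Fintype.equivFin (Set Dr.D) X
  have hq : ∀ X Y, q X = q Y → X = Y := by
    intro X Y h
    exact (Fintype.equivFin (Set Dr.D)).injective (Fin.ext h)
  have hlt : ∀ a c s t : ℕ, s < B → t < B → a * B + s ≤ c * B + t → a ≤ c := by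
    intro a c s t hs ht h
    by_contra hac
    push Not at hac
    have h4 : (c + 1) * B ≤ a * B := Nat.mul_le_mul_right _ hac
    have h5 : (c + 1) * B = c * B + B := by ring
    omega
  refine ⟨fun w => q (cX Dr w) * B + p (cX Dr w) w,
    fun e => pg (cX Dr (Quot.out e).1) e, ?_, ?_⟩
  · intro w w' h
    have h' : q (cX Dr w) * B + p (cX Dr w) w = q (cX Dr w') * B + p (cX Dr w') w' := h
    have h4 : q (cX Dr w) = q (cX Dr w') :=
      le_antisymm (hlt _ _ _ _ (hB _ _) (hB _ _) h'.le) (hlt _ _ _ _ (hB _ _) (hB _ _) h'.ge)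
    have h5 := hq _ _ h4
    rw [h5] at h'
    exact hp (cX Dr w') w w' h5 rfl (by omega)
  · intro x y u w hxu hyw
    have hpage : ∀ s t, G.Adj s t →
        pg (cX Dr (Quot.out s(s, t)).1) s(s, t) = pg (cX Dr s) s(s, t) := by
      intro s t hst
      have h4 : (Quot.out s(s, t)).1 = s ∨ (Quot.out s(s, t)).1 = t :=
        Sym2.mem_iff.1 (Sym2.out_fst_mem s(s, t))
      rcases h4 with h4 | h4
      · rw [h4]
      · rw [h4, cX_adj Dr hst]
    have h4 := cX_adj Dr hxu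
    have h5 := cX_adj Dr hyw
    show q (cX Dr x) * B + p (cX Dr x) x < q (cX Dr y) * B + p (cX Dr y) y →
      q (cX Dr y) * B + p (cX Dr y) y < q (cX Dr u) * B + p (cX Dr u) u →
      q (cX Dr u) * B + p (cX Dr u) u < q (cX Dr w) * B + p (cX Dr w) w →
      pg (cX Dr (Quot.out s(x, u)).1) s(x, u) ≠ pg (cX Dr (Quot.out s(y, w)).1) s(y, w)
    intro l1 l2 l3
    rw [hpage x u hxu, hpage y w hyw]
    rw [← h4] at l2 l3
    rw [← h5] at l3
    have h6 : q (cX Dr x) = q (cX Dr y) :=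
      le_antisymm (hlt _ _ _ _ (hB _ _) (hB _ _) l1.le) (hlt _ _ _ _ (hB _ _) (hB _ _) l2.le)
    have h7 := hq _ _ h6
    rw [h7] at l1 l2 l3
    rw [h7]
    exact hpg (cX Dr y) x y u w h7 rfl hxu hyw (by omega) (by omega) (by omega)

/-- the book embedding of one component -/
theorem D_comp [Fintype W] {b : ℕ} (hb : 0 < b)
    (hF : ∀ (V : Type) [Fintype V] (R : Rt V), M5 R.G → K34 R.G →
      Nonempty (Tour R) → ∀ F : Fam R (4 * (k + 1)) 8, BookLE F.Γ b)
    (hT : TourStmt) (h5 : M5Stmt) (h34 : K34Stmt) (hSd : SdStmt) (X : Set Dr.D) :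
    ∃ (p : W → ℕ) (pg : Sym2 W → Fin b),
      (∀ w w', cX Dr w = X → cX Dr w' = X → p w = p w' → w = w') ∧
      ∀ x y u w, cX Dr x = X → cX Dr y = X → G.Adj x u → G.Adj y w → p x < p y → p y < p u →
        p u < p w → pg s(x, u) ≠ pg s(y, w) := by
  by_cases hX : ∃ d0, X = {x | Rch Dr d0 x}
  · obtain ⟨d0, rfl⟩ := hX
    obtain ⟨hS, hSi, hTr⟩ := hSd (RC (cmap Dr d0).sub) (RC_sphere (sub_noLoop (cmap Dr d0)))
      ⟨RF.quad (⟨d0, Relation.ReflTransGen.refl⟩, false)⟩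
    obtain ⟨pos, page, hpos, hpage⟩ := hF (DN Dr d0).V (DR Dr d0) (h5 _ hS) (h34 _ hS hSi hTr)
      (hT (DN Dr d0) hS hSi hTr (DR Dr d0) rfl) (DFam Dr d0)
    refine ⟨fun w => pos (Dg Dr d0 w), fun e => page (e.map (Dg Dr d0)), ?_, ?_⟩
    · intro w w' hw hw' hp
      exact Dg_inj Dr hw hw' (hpos hp)
    · intro x y u w hx hy hxu hyw l1 l2 l3
      exact hpage (Dg Dr d0 x) (Dg Dr d0 y) (Dg Dr d0 u) (Dg Dr d0 w) ⟨x, u, hxu, hx, rfl, rfl⟩
        ⟨y, w, hyw, hy, rfl, rfl⟩ l1 l2 l3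
  · refine ⟨fun w => Fintype.equivFin W w, fun _ => ⟨0, hb⟩, ?_, ?_⟩
    · intro w w' _ _ hp
      exact (Fintype.equivFin W).injective (Fin.ext hp)
    · intro x y u w hx _ hxu
      exfalso
      obtain ⟨d, hd, -⟩ := trail_edge Dr hxu
      exact hX ⟨d, by rw [← hx]; exact cX_eq Dr hd⟩

/-- Part D -/
theorem draw_stmt : DrawStmt := by
  intro hF hT h5 h34 hSd k
  obtain ⟨b, hb, hF'⟩ := hF (4 * (k + 1)) 8
  refine ⟨b, ?_⟩
  intro W _ G hK
  obtain ⟨Dr⟩ := hK
  exact D_combine Dr (D_comp Dr hb hF' hT h5 h34 hSd)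

end Pool.Agent.H.MP_c8cc4c_co.Hub
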